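import Mathlib

/-!
# Finite propagation without finitely many states

The infinite dihedral group acts on the binary words as the group of affine maps `x ↦ ± x + m` of the
2-adic integers. We add a letter `⋆` which is fixed by all elements, with the restrictions
`g|_⋆ = t⁻¹ g t`, where `t` is the translation by `1`. This self-similar action is not finite state,
because of the restrictions of `x ↦ - x` to the words `⋆ ⋯ ⋆`. But it arises by a change of basis
from the finite state action with `g|_⋆ = g`, and finite propagation does not depend on the basis.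
-/

set_option autoImplicit false

namespace Pool.Agent.Results.MP_3790b3_al.PropagationNotFiniteState

/-- A self-similar action `(G, X)`: a faithful action of the group `G` on the words over `X`, with
restrictions `g|_w = res g w`. -/
structure SelfSimilarAction (G X : Type) [Group G] where
  /-- `act g w = g(w)` -/
  act : G → List X → List X
  /-- `res g w = g|_w` -/
  res : G → List X → G
  one_act : ∀ w, act 1 w = w
  mul_act : ∀ g h w, act (g * h) w = act g (act h w)
  faithful : ∀ g, (∀ w, act g w = w) → g = 1
  act_append : ∀ g u v, act g (u ++ v) = act g u ++ act (res g u) v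
  res_append : ∀ g u v, res g (u ++ v) = res (res g u) v
  res_mul : ∀ g h u, res (g * h) u = res g (act h u) * res h u
  act_nil : ∀ g, act g [] = []
  res_nil : ∀ g, res g [] = g

/-- The action is finite state if every element has only finitely many restrictions. -/
def SelfSimilarAction.FiniteState {G X : Type} [Group G] (A : SelfSimilarAction G X) : Prop :=
  ∀ g, {k | ∃ w, k = A.res g w}.Finite

/-- The Zappa-Szep product `X^* ⋈ G` has finite propagation: for all `g, h` there is a family `x_w`
with `x_∅ = 1` such that `x_{g(w)}⁻¹ g|_w x_w` and `x_{h(w)}⁻¹ h|_w x_w` take only finitely many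
values. -/
def SelfSimilarAction.FinitePropagation {G X : Type} [Group G] (A : SelfSimilarAction G X) : Prop :=
  ∀ g h : G, ∃ x : List X → G, x [] = 1 ∧
    {k | ∃ w, k = (x (A.act g w))⁻¹ * A.res g w * x w}.Finite ∧
    {k | ∃ w, k = (x (A.act h w))⁻¹ * A.res h w * x w}.Finite

/-- The affine maps `x ↦ e x + m` with `e = ± 1` and `m` an integer: the infinite dihedral group. -/
@[ext]
structure Aff where
  e : ℤˣ
  m : ℤ

namespace Aff

instance : Mul Aff := ⟨fun g h => ⟨g.e * h.e, g.e * h.m + g.m⟩⟩
instance : One Aff := ⟨⟨1, 0⟩⟩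
instance : Inv Aff := ⟨fun g => ⟨g.e⁻¹, -((g.e⁻¹ : ℤˣ) : ℤ) * g.m⟩⟩

theorem mul_e (g h : Aff) : (g * h).e = g.e * h.e := rfl
theorem mul_m (g h : Aff) : (g * h).m = g.e * h.m + g.m := rfl
theorem one_e : (1 : Aff).e = 1 := rfl
theorem one_m : (1 : Aff).m = 0 := rfl
theorem inv_e (g : Aff) : (g⁻¹).e = g.e⁻¹ := rfl
theorem inv_m (g : Aff) : (g⁻¹).m = -((g.e⁻¹ : ℤˣ) : ℤ) * g.m := rfl

instance : Group Aff where
  mul_assoc a b c := by
    ext
    · rw [mul_e, mul_e, mul_e, mul_e, mul_assoc]
    · rw [mul_m, mul_m, mul_m, mul_m, mul_e]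
      push_cast
      ring
  one_mul a := by
    ext
    · rw [mul_e, one_e, one_mul]
    · rw [mul_m, one_e, one_m]
      simp
  mul_one a := by
    ext
    · rw [mul_e, one_e, mul_one]
    · rw [mul_m, one_m]
      simp
  inv_mul_cancel a := by
    ext
    · rw [mul_e, inv_e, inv_mul_cancel, one_e]
    · rw [mul_m, inv_e, inv_m, one_m]
      ring

/-- The translation by `1`. -/
def t : Aff := ⟨1, 1⟩

end Aff

open Aff

/-- The alphabet: the binary digits and the letter `⋆ = none`. -/
abbrev X : Type := Option Bool

/-- The value of a digit. -/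
def bit (b : Bool) : ℤ := if b then 1 else 0

/-- The action on letters. -/
def actL (g : Aff) : X → X
  | none => none
  | some b => some (decide ((g.e * bit b + g.m) % 2 = 1))

/-- The restrictions to letters of the untwisted action. -/
def c0 (g : Aff) : X → Aff
  | none => g
  | some b => ⟨g.e, (g.e * bit b + g.m) / 2⟩

/-- The change of basis. -/
def hx : X → Aff
  | none => t
  | some _ => 1

/-- The restrictions to letters. -/
def cL (g : Aff) (x : X) : Aff := (hx (actL g x))⁻¹ * c0 g x * hx x

theorem bit_act (g : Aff) (b : Bool) :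
    bit (decide ((g.e * bit b + g.m) % 2 = 1)) = (g.e * bit b + g.m) % 2 := by
  generalize (g.e * bit b + g.m : ℤ) = v
  rcases Int.emod_two_eq_zero_or_one v with h | h
  · rw [h]
    rfl
  · rw [h]
    rfl

theorem actL_mul (g h : Aff) (x : X) : actL (g * h) x = actL g (actL h x) := by
  rcases x with _ | b
  · rfl
  · show some _ = some _
    congr 2
    rw [bit_act, mul_e, mul_m]
    rcases Int.units_eq_one_or g.e with h1 | h1
    · rw [h1, one_mul, Units.val_one, one_mul, one_mul, eq_iff_iff]
      constructor <;> intro h2 <;> omega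
    · rw [h1]
      push_cast
      rw [eq_iff_iff]
      have e1 : (-1 : ℤ) * (h.e : ℤ) * bit b = -((h.e : ℤ) * bit b) := by ring
      rw [e1]
      constructor <;> intro h2 <;> omega

theorem actL_one (x : X) : actL 1 x = x := by
  rcases x with _ | b
  · rfl
  · cases b <;> rfl

theorem c0_mul (g h : Aff) (x : X) : c0 (g * h) x = c0 g (actL h x) * c0 h x := by
  rcases x with _ | b
  · rfl
  · apply Aff.ext
    · rfl
    · show (((g * h).e : ℤ) * bit b + (g * h).m) / 2 =
        (g.e : ℤ) * (((h.e : ℤ) * bit b + h.m) / 2) +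
          ((g.e : ℤ) * bit (decide (((h.e : ℤ) * bit b + h.m) % 2 = 1)) + g.m) / 2
      rw [bit_act, mul_e, mul_m]
      rcases Int.units_eq_one_or g.e with h1 | h1
      · rw [h1]
        push_cast
        rw [one_mul, one_mul, one_mul, one_mul]
        omega
      · rw [h1]
        push_cast
        have e1 : (-1 : ℤ) * (h.e : ℤ) * bit b = -((h.e : ℤ) * bit b) := by ring
        rw [e1]
        omega

theorem cL_mul (g h : Aff) (x : X) : cL (g * h) x = cL g (actL h x) * cL h x := by
  rw [cL, cL, cL, c0_mul, actL_mul]
  group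

/-- The action on words. -/
def act : Aff → List X → List X
  | _, [] => []
  | g, x :: w => actL g x :: act (cL g x) w

/-- The restrictions to words. -/
def res : Aff → List X → Aff
  | g, [] => g
  | g, x :: w => res (cL g x) w

theorem cL_one (x : X) : cL 1 x = 1 := by
  have h := cL_mul 1 1 x
  rw [one_mul, actL_one] at h
  exact left_eq_mul.1 h

theorem one_act (w : List X) : act 1 w = w := by
  induction w with
  | nil => rfl
  | cons x w ih =>
    show actL 1 x :: act (cL 1 x) w = _
    rw [actL_one, cL_one, ih]

theorem mul_act (g h : Aff) (w : List X) : act (g * h) w = act g (act h w) := by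
  induction w generalizing g h with
  | nil => rfl
  | cons x w ih =>
    show actL (g * h) x :: act (cL (g * h) x) w =
      actL g (actL h x) :: act (cL g (actL h x)) (act (cL h x) w)
    rw [actL_mul, cL_mul, ih]

theorem act_append (g : Aff) (u v : List X) : act g (u ++ v) = act g u ++ act (res g u) v := by
  induction u generalizing g with
  | nil => rfl
  | cons x u ih =>
    show actL g x :: act (cL g x) (u ++ v) = actL g x :: (act (cL g x) u ++ act (res (cL g x) u) v)
    rw [ih]

theorem res_append (g : Aff) (u v : List X) : res g (u ++ v) = res (res g u) v := by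
  induction u generalizing g with
  | nil => rfl
  | cons x u ih => exact ih _

theorem res_mul (g h : Aff) (u : List X) : res (g * h) u = res g (act h u) * res h u := by
  induction u generalizing g h with
  | nil => rfl
  | cons x u ih =>
    show res (cL (g * h) x) u = res (cL g (actL h x)) (act (cL h x) u) * res (cL h x) u
    rw [cL_mul, ih]

/-- For digits the twisted and the untwisted restrictions agree. -/
theorem cL_some (g : Aff) (b : Bool) : cL g (some b) = ⟨g.e, (g.e * bit b + g.m) / 2⟩ := by
  show (1 : Aff)⁻¹ * _ * 1 = _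
  rw [inv_one, one_mul, mul_one]
  rfl

/-- If `g` fixes all words, then its restriction to a digit does. -/
theorem faithful_aux (g : Aff) (hg : ∀ w, act g w = w) :
    g.m % 2 = 0 ∧ ∀ w, act ⟨g.e, g.m / 2⟩ w = w := by
  have h1 : ∀ w, actL g (some false) :: act (cL g (some false)) w = some false :: w :=
    fun w => hg (some false :: w)
  constructor
  · have h2 := (List.cons.inj (h1 [])).1
    have h3 : decide (((g.e : ℤ) * bit false + g.m) % 2 = 1) = false := Option.some.inj h2
    have h4 := bit_act g false
    rw [h3] at h4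
    have h5 : (g.e : ℤ) * bit false = 0 := mul_zero _
    rw [h5, zero_add] at h4
    exact h4.symm
  · intro w
    have h2 := (List.cons.inj (h1 w)).2
    rw [cL_some] at h2
    have h5 : (g.e : ℤ) * bit false = 0 := mul_zero _
    rw [h5, zero_add] at h2
    exact h2

theorem faithful_m (n : ℕ) : ∀ g : Aff, (∀ w, act g w = w) → g.m.natAbs ≤ n → g.m = 0 := by
  induction n with
  | zero =>
    intro g _ h
    omega
  | succ n ih =>
    intro g hg h
    obtain ⟨h1, h2⟩ := faithful_aux g hg
    by_contra hne
    have h3 := ih ⟨g.e, g.m / 2⟩ h2 (by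
      show (g.m / 2).natAbs ≤ n
      omega)
    have h4 : g.m / 2 = 0 := h3
    omega

theorem faithful (g : Aff) (hg : ∀ w, act g w = w) : g = 1 := by
  have hm : g.m = 0 := faithful_m _ g hg le_rfl
  apply Aff.ext
  · rcases Int.units_eq_one_or g.e with h | h
    · exact h
    · exfalso
      have h1 := hg [some true, some false]
      have h2 : g = ⟨-1, 0⟩ := Aff.ext h hm
      rw [h2] at h1
      have h3 := (List.cons.inj (List.cons.inj h1).2).1
      revert h3
      show ¬ _
      rw [cL_some]
      decide
  · exact hm

/-- The self-similar action. -/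
def A : SelfSimilarAction Aff X where
  act := act
  res := res
  one_act := one_act
  mul_act := mul_act
  faithful := faithful
  act_append := act_append
  res_append := res_append
  res_mul := res_mul
  act_nil _ := rfl
  res_nil _ := rfl

/-- The family which undoes the change of basis. -/
def Yf : Aff → List X → Aff
  | u, [] => u
  | u, x :: w => Yf (c0 u x * hx x) w

/-- The restrictions of the untwisted action. -/
def R0 : Aff → Aff → List X → Aff
  | k, _, [] => k
  | k, u, x :: w => R0 (c0 k (actL u x)) (c0 u x * hx x) w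

theorem key (w : List X) : ∀ k k0 u u' : Aff, u' * k = k0 * u →
    Yf u' (act k w) * res k w = R0 k0 u w * Yf u w := by
  induction w with
  | nil => exact fun k k0 u u' h => h
  | cons x w ih =>
    intro k k0 u u' h
    show Yf (c0 u' (actL k x) * hx (actL k x)) (act (cL k x) w) * res (cL k x) w =
      R0 (c0 k0 (actL u x)) (c0 u x * hx x) w * Yf (c0 u x * hx x) w
    apply ih
    rw [cL]
    have h1 : c0 u' (actL k x) * c0 k x = c0 k0 (actL u x) * c0 u x := by
      rw [← c0_mul, ← c0_mul, h]
    calc c0 u' (actL k x) * hx (actL k x) * ((hx (actL k x))⁻¹ * c0 k x * hx x) =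
        (c0 u' (actL k x) * c0 k x) * hx x := by group
      _ = _ := by rw [h1, mul_assoc]

theorem R0_bound (w : List X) : ∀ (M : ℤ) (k u : Aff), 1 ≤ M → |k.m| ≤ M → |(R0 k u w).m| ≤ M := by
  induction w with
  | nil => exact fun M k u _ h => h
  | cons x w ih =>
    intro M k u hM hk
    apply ih M _ _ hM
    rcases hax : actL u x with _ | b
    · exact hk
    · show |((k.e : ℤ) * bit b + k.m) / 2| ≤ M
      have h1 : |(k.e : ℤ) * bit b| ≤ 1 := by
        rcases Int.units_eq_one_or k.e with h | h <;> rw [h] <;> cases b <;> simp [bit]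
      rw [abs_le] at h1 hk ⊢
      constructor <;> omega

theorem finite_R0 (g : Aff) : {k | ∃ w, k = R0 g 1 w}.Finite := by
  have h : {k | ∃ w, k = R0 g 1 w} ⊆ (fun p : ℤˣ × ℤ => (⟨p.1, p.2⟩ : Aff)) ''
      (Set.univ ×ˢ Set.Icc (-(|g.m| + 1)) (|g.m| + 1)) := by
    rintro _ ⟨w, rfl⟩
    have h1 := R0_bound w (|g.m| + 1) g 1 (by have := abs_nonneg g.m; omega) (by omega)
    rw [abs_le] at h1
    exact ⟨((R0 g 1 w).e, (R0 g 1 w).m), ⟨Set.mem_univ _, h1⟩, rfl⟩
  exact ((Set.finite_univ.prod (Set.finite_Icc _ _)).image _).subset h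

theorem finitePropagation : A.FinitePropagation := by
  intro g h
  have hf : ∀ g : Aff, {k | ∃ w, k = ((Yf 1 (A.act g w))⁻¹)⁻¹ * A.res g w * (Yf 1 w)⁻¹}.Finite := by
    intro g
    refine (finite_R0 g).subset ?_
    rintro _ ⟨w, rfl⟩
    refine ⟨w, ?_⟩
    have := key w g g 1 1 (by rw [one_mul, mul_one])
    rw [inv_inv, mul_inv_eq_iff_eq_mul]
    exact this
  exact ⟨fun w => (Yf 1 w)⁻¹, inv_one, hf g, hf h⟩

theorem res_star (n : ℕ) : ∀ m : ℤ, res ⟨-1, m⟩ (List.replicate n none) = ⟨-1, m - 2 * n⟩ := by
  induction n with
  | zero =>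
    intro m
    show (⟨-1, m⟩ : Aff) = _
    simp
  | succ n ih =>
    intro m
    have h1 : cL ⟨-1, m⟩ none = ⟨-1, m - 2⟩ := by
      show t⁻¹ * ⟨-1, m⟩ * t = _
      apply Aff.ext
      · rfl
      · show (((t⁻¹ * ⟨-1, m⟩ : Aff).e : ℤ)) * 1 + (t⁻¹ * ⟨-1, m⟩ : Aff).m = m - 2
        rw [mul_e, mul_m, inv_e, inv_m]
        simp [t]
        ring
    show res (cL ⟨-1, m⟩ none) (List.replicate n none) = _
    rw [h1, ih]
    apply Aff.ext
    · rfl
    · show m - 2 - 2 * (n : ℤ) = m - 2 * ((n + 1 : ℕ) : ℤ)
      push_cast
      ring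

theorem not_finiteState : ¬ A.FiniteState := by
  intro h
  have h1 := h ⟨-1, 0⟩
  have hinj : Function.Injective fun n : ℕ => (⟨-1, 0 - 2 * (n : ℤ)⟩ : Aff) := by
    intro n n' hn
    have := congrArg Aff.m hn
    simp only at this
    omega
  refine Set.infinite_range_of_injective hinj (h1.subset ?_)
  rintro _ ⟨n, rfl⟩
  exact ⟨List.replicate n none, (res_star n 0).symm⟩

/-- **Main result.** There is a self-similar action `(G, X)`, over an alphabet with three letters, which
is not finite state but whose Zappa-Szep product `X^* ⋈ G` has finite propagation. -/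
theorem result : ∃ (G X : Type) (_ : Group G) (_ : Finite X) (A : SelfSimilarAction G X),
    ¬ A.FiniteState ∧ A.FinitePropagation :=
  ⟨Aff, X, inferInstance, inferInstance, A, not_finiteState, finitePropagation⟩

end Pool.Agent.Results.MP_3790b3_al.PropagationNotFiniteState
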